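import Mathlib
import Pool.Agent.P6ED.Main

set_option autoImplicit false

open SimpleGraph

namespace Pool.Agent.Results.MP_a55661_co.AntiholeLengths

/-- The closed neighbourhood of a vertex. -/
def closedNbhd {V : Type} (G : SimpleGraph V) (v : V) : Set V := {u | u = v ∨ G.Adj u v}

/-- `D` is an efficient dominating set: the closed neighbourhoods of its vertices are pairwise
disjoint and their union is the whole vertex set. -/
def IsEfficientDominating {V : Type} (G : SimpleGraph V) (D : Set V) : Prop :=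
  D.PairwiseDisjoint (closedNbhd G) ∧ ⋃ d ∈ D, closedNbhd G d = Set.univ

/-- The square of a graph: two vertices are adjacent iff their distance is 1 or 2. -/
def square {V : Type} (G : SimpleGraph V) : SimpleGraph V where
  Adj u v := G.dist u v = 1 ∨ G.dist u v = 2
  symm := ⟨fun u v h => by rw [G.dist_comm]; exact h⟩
  loopless := ⟨fun u h => by simp at h⟩

/-- No induced path on six vertices. -/
def P6Free {V : Type} (G : SimpleGraph V) : Prop := ¬ (pathGraph 6).IsIndContained G

theorem square_adj {V : Type} (G : SimpleGraph V) (u v : V) :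
    (square G).Adj u v ↔ u ≠ v ∧ (G.Adj u v ∨ ∃ w, G.Adj u w ∧ G.Adj w v) := by
  constructor
  · intro h
    refine ⟨h.ne, ?_⟩
    rcases h with h | h
    · exact Or.inl (dist_eq_one_iff_adj.1 h)
    · right
      obtain ⟨p, hp⟩ := G.exists_walk_of_dist_ne_zero (u := u) (v := v) (by omega)
      rw [h] at hp
      cases p with
      | nil => simp at hp
      | cons h1 p =>
        cases p with
        | nil => simp at hp
        | cons h2 p =>
          cases p with
          | nil => exact ⟨_, h1, h2⟩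
          | cons h3 p => simp at hp
  · rintro ⟨hne, h⟩
    rcases h with h | ⟨w, h1, h2⟩
    · exact Or.inl (dist_eq_one_iff_adj.2 h)
    · have h3 : G.dist u v ≤ 2 := by
        have := G.dist_le (Walk.cons h1 (Walk.cons h2 Walk.nil))
        simpa using this
      have h4 : G.dist u v ≠ 0 := by
        intro h0
        exact hne (((Reachable.trans h1.reachable h2.reachable).dist_eq_zero_iff).1 h0)
      change G.dist u v = 1 ∨ G.dist u v = 2
      omega

theorem square_eq {V : Type} (G : SimpleGraph V) :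
    square G = SimpleGraph.fromRel (fun u v : V => G.Adj u v ∨ ∃ w, G.Adj u w ∧ G.Adj w v) := by
  ext u v
  rw [square_adj, SimpleGraph.fromRel_adj]
  constructor
  · rintro ⟨h, h'⟩
    exact ⟨h, Or.inl h'⟩
  · rintro ⟨h, h' | (h' | ⟨w, h1, h2⟩)⟩
    · exact ⟨h, h'⟩
    · exact ⟨h, Or.inl h'.symm⟩
    · exact ⟨h, Or.inr ⟨w, h2.symm, h1.symm⟩⟩

theorem eds {V : Type} (G : SimpleGraph V) (D : Set V) (h : IsEfficientDominating G D) :
    ∀ v : V, ∃! d : V, d ∈ D ∧ (d = v ∨ G.Adj d v) := by
  intro v
  have hv : v ∈ ⋃ d ∈ D, closedNbhd G d := by rw [h.2]; trivial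
  simp only [Set.mem_iUnion] at hv
  obtain ⟨d, hd, hdv⟩ := hv
  refine ⟨d, ⟨hd, ?_⟩, ?_⟩
  · rcases hdv with h1 | h1
    · exact Or.inl h1.symm
    · exact Or.inr h1.symm
  · rintro e ⟨he, hev⟩
    by_contra hne
    have h3 := h.1 he hd hne
    have h4 : v ∈ closedNbhd G e := by
      rcases hev with h1 | h1
      · exact Or.inl h1.symm
      · exact Or.inr h1.symm
    exact Set.disjoint_left.1 h3 h4 hdv

theorem odd_excluded {V : Type} (G : SimpleGraph V) (hP : P6Free G) (D : Set V)
    (hD : IsEfficientDominating G D) (k : ℕ) (hk : 5 ≤ k)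
    (h : ((cycleGraph k)ᶜ).IsIndContained (square G)) : Even k := by
  by_contra hne
  rw [Nat.not_even_iff_odd] at hne
  obtain ⟨φ⟩ := h
  rw [square_eq] at φ
  refine Pool.Agent.P6ED.main G ⟨fun f => hP ⟨f⟩⟩ ⟨D, eds G D hD⟩ k hk hne φ

/-! The example for even length `2 m`. -/

/-- Vertices of the example. -/
inductive EV (m : ℕ) : Type
  | a (i : Fin m) : EV m
  | b (i : Fin m) : EV m
  | w (i : Fin m) : EV m
  | p : EV m
  | q : EV m

/-- The example embeds in a finite type. -/
def EV.code {m : ℕ} : EV m → Fin 5 × Option (Fin m)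
  | .a i => (0, some i)
  | .b i => (1, some i)
  | .w i => (2, some i)
  | .p => (3, none)
  | .q => (4, none)

theorem EV.code_inj {m : ℕ} : Function.Injective (EV.code (m := m)) := by
  intro x y h
  cases x <;> cases y <;> simp [EV.code] at h ⊢ <;> exact h

instance {m : ℕ} : Finite (EV m) := Finite.of_injective _ EV.code_inj

/-- Adjacency of the example (as a relation to be symmetrised). -/
def R {m : ℕ} : EV m → EV m → Prop
  | .a i, .w j => i.val ≠ j.val ∧ i.val ≠ (j.val + 1) % m
  | .w j, .a i => i.val ≠ j.val ∧ i.val ≠ (j.val + 1) % m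
  | .w i, .w j => i ≠ j
  | .b i, .b j => i ≠ j
  | .w i, .b j => i = j
  | .b i, .w j => i = j
  | .p, .a _ => True
  | .a _, .p => True
  | .p, .w _ => True
  | .w _, .p => True
  | .q, .b _ => True
  | .b _, .q => True
  | _, _ => False

/-- The example. -/
def EG (m : ℕ) : SimpleGraph (EV m) where
  Adj := R
  symm := ⟨by
    intro x y h
    cases x <;> cases y <;> simp [R] at h ⊢ <;> first | exact h | exact h.symm | exact fun e => h e.symm⟩
  loopless := ⟨by
    intro x h
    cases x <;> simp [R] at h⟩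

/-- Classes. -/
def cls {m : ℕ} : EV m → Fin 3
  | .a _ => 0
  | .w _ => 1
  | .p => 1
  | .b _ => 2
  | .q => 2

theorem cls_spec {m : ℕ} (x y : EV m) (hxy : x ≠ y) :
    (cls x = 1 → cls y = 1 → (EG m).Adj x y) ∧ (cls x = 2 → cls y = 2 → (EG m).Adj x y) ∧
    (cls x = 0 → cls y = 0 → ¬ (EG m).Adj x y) ∧ (cls x = 0 → cls y = 2 → ¬ (EG m).Adj x y) := by
  cases x <;> cases y <;> simp [cls, EG, R] at hxy ⊢ <;> exact hxy

/-- adjacency in the path, as a Boolean -/
def padj (i j : Fin 6) : Bool := decide (i.val + 1 = j.val ∨ j.val + 1 = i.val)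

theorem no_colouring : ∀ c0 c1 c2 c3 c4 c5 : Fin 3,
    ¬ (∀ i j : Fin 6, i ≠ j →
      ((![c0, c1, c2, c3, c4, c5] i = 1 → ![c0, c1, c2, c3, c4, c5] j = 1 → padj i j = true) ∧
       (![c0, c1, c2, c3, c4, c5] i = 2 → ![c0, c1, c2, c3, c4, c5] j = 2 → padj i j = true) ∧
       (![c0, c1, c2, c3, c4, c5] i = 0 → ![c0, c1, c2, c3, c4, c5] j = 0 → padj i j = false) ∧
       (![c0, c1, c2, c3, c4, c5] i = 0 → ![c0, c1, c2, c3, c4, c5] j = 2 → padj i j = false))) := by
  decide +kernel

theorem EG_P6Free (m : ℕ) : P6Free (EG m) := by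
  rintro ⟨φ⟩
  apply no_colouring (cls (φ 0)) (cls (φ 1)) (cls (φ 2)) (cls (φ 3)) (cls (φ 4)) (cls (φ 5))
  have hc : ∀ i : Fin 6, ![cls (φ 0), cls (φ 1), cls (φ 2), cls (φ 3), cls (φ 4), cls (φ 5)] i
      = cls (φ i) := by
    intro i
    fin_cases i <;> rfl
  intro i j hij
  rw [hc, hc]
  have hne : φ i ≠ φ j := fun h => hij (φ.injective h)
  have hadj : (EG m).Adj (φ i) (φ j) ↔ padj i j = true := by
    rw [φ.map_rel_iff, pathGraph_adj]
    simp [padj]
  obtain ⟨h1, h2, h3, h4⟩ := cls_spec (φ i) (φ j) hne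
  refine ⟨fun x y => hadj.1 (h1 x y), fun x y => hadj.1 (h2 x y), fun x y => ?_, fun x y => ?_⟩
  · have := h3 x y
    rw [hadj] at this
    simpa using this
  · have := h4 x y
    rw [hadj] at this
    simpa using this

theorem EG_eds (m : ℕ) : IsEfficientDominating (EG m) {EV.p, EV.q} := by
  constructor
  · intro x hx y hy hxy
    rw [Function.onFun, Set.disjoint_left]
    intro z h1 h2
    rcases hx with rfl | hx
    · rcases hy with rfl | hy
      · exact hxy rfl
      · rw [Set.mem_singleton_iff] at hy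
        subst hy
        cases z <;> simp [closedNbhd, EG, R] at h1 h2
    · rw [Set.mem_singleton_iff] at hx
      subst hx
      rcases hy with rfl | hy
      · cases z <;> simp [closedNbhd, EG, R] at h1 h2
      · rw [Set.mem_singleton_iff] at hy
        exact hxy hy.symm
  · rw [Set.eq_univ_iff_forall]
    intro z
    simp only [Set.mem_iUnion]
    cases z with
    | a i => exact ⟨EV.p, Or.inl rfl, Or.inr trivial⟩
    | w i => exact ⟨EV.p, Or.inl rfl, Or.inr trivial⟩
    | b i => exact ⟨EV.q, Or.inr rfl, Or.inr trivial⟩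
    | p => exact ⟨EV.p, Or.inl rfl, Or.inl rfl⟩
    | q => exact ⟨EV.q, Or.inr rfl, Or.inl rfl⟩

theorem sq_ab {m : ℕ} (i j : Fin m) : (square (EG m)).Adj (EV.a i) (EV.b j) ↔
    (i.val ≠ j.val ∧ i.val ≠ (j.val + 1) % m) := by
  rw [square_adj]
  constructor
  · rintro ⟨_, h | ⟨x, h1, h2⟩⟩
    · simp [EG, R] at h
    · cases x with
      | w l =>
        have e : l = j := h2
        subst e
        exact h1
      | a l => exact absurd h1 (by simp [EG, R])
      | b l => exact absurd h1 (by simp [EG, R])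
      | p => exact absurd h2 (by simp [EG, R])
      | q => exact absurd h1 (by simp [EG, R])
  · intro h
    exact ⟨by simp, Or.inr ⟨EV.w j, h, rfl⟩⟩

theorem sq_aa {m : ℕ} (i j : Fin m) (h : i ≠ j) : (square (EG m)).Adj (EV.a i) (EV.a j) := by
  rw [square_adj]
  exact ⟨by simpa using h, Or.inr ⟨EV.p, trivial, trivial⟩⟩

theorem sq_bb {m : ℕ} (i j : Fin m) (h : i ≠ j) : (square (EG m)).Adj (EV.b i) (EV.b j) := by
  rw [square_adj]
  exact ⟨by simpa using h, Or.inl h⟩

/-- the placement of the antihole -/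
def place (m : ℕ) (i : Fin (m + m)) : EV m :=
  if i.val % 2 = 0 then EV.a ⟨i.val / 2, by omega⟩ else EV.b ⟨i.val / 2, by omega⟩

theorem cyc_adj (k : ℕ) (a b : Fin k) (hab : a.val < b.val) :
    (cycleGraph k).Adj a b ↔ (b.val = a.val + 1 ∨ (a.val = 0 ∧ b.val = k - 1)) := by
  rw [cycleGraph_adj', Fin.sub_def, Fin.sub_def]
  simp only
  have ha := a.isLt
  have hb := b.isLt
  have e1 : (k - b.val + a.val) % k = k - b.val + a.val := Nat.mod_eq_of_lt (by omega)
  have e2 : (k - a.val + b.val) % k = b.val - a.val := by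
    rw [show k - a.val + b.val = (b.val - a.val) + k by omega, Nat.add_mod_right]
    exact Nat.mod_eq_of_lt (by omega)
  rw [e1, e2]
  omega

theorem succ_mod (m j : ℕ) (hj : j < m) :
    ((j + 1) % m = j + 1 ∧ j + 1 < m) ∨ ((j + 1) % m = 0 ∧ j + 1 = m) := by
  rcases Nat.lt_or_ge (j + 1) m with h | h
  · exact Or.inl ⟨Nat.mod_eq_of_lt h, h⟩
  · have e : j + 1 = m := by omega
    exact Or.inr ⟨by rw [e, Nat.mod_self], e⟩

theorem place_adj (m : ℕ) (hm : 3 ≤ m) (i j : Fin (m + m)) (hij : i.val < j.val) :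
    (square (EG m)).Adj (place m i) (place m j) ↔ ¬ (cycleGraph (m + m)).Adj i j := by
  rw [cyc_adj _ _ _ hij]
  have hi := i.isLt
  have hj := j.isLt
  unfold place
  by_cases h1 : i.val % 2 = 0
  · by_cases h2 : j.val % 2 = 0
    · rw [if_pos h1, if_pos h2]
      constructor
      · intro _; omega
      · intro _
        apply sq_aa
        rw [Ne, Fin.mk.injEq]
        omega
    · rw [if_pos h1, if_neg h2, sq_ab]
      simp only
      rcases succ_mod m (j.val / 2) (by omega) with ⟨e, e'⟩ | ⟨e, e'⟩ <;> rw [e] <;> omega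
  · by_cases h2 : j.val % 2 = 0
    · rw [if_neg h1, if_pos h2, (square (EG m)).adj_comm, sq_ab]
      simp only
      rcases succ_mod m (i.val / 2) (by omega) with ⟨e, e'⟩ | ⟨e, e'⟩ <;> rw [e] <;> omega
    · rw [if_neg h1, if_neg h2]
      constructor
      · intro _; omega
      · intro _
        apply sq_bb
        rw [Ne, Fin.mk.injEq]
        omega

theorem place_inj (m : ℕ) : Function.Injective (place m) := by
  intro i j h
  unfold place at h
  by_cases h1 : i.val % 2 = 0 <;> by_cases h2 : j.val % 2 = 0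
  · rw [if_pos h1, if_pos h2, EV.a.injEq, Fin.mk.injEq] at h
    exact Fin.ext (by omega)
  · rw [if_pos h1, if_neg h2] at h
    cases h
  · rw [if_neg h1, if_pos h2] at h
    cases h
  · rw [if_neg h1, if_neg h2, EV.b.injEq, Fin.mk.injEq] at h
    exact Fin.ext (by omega)

theorem EG_antihole (m : ℕ) (hm : 3 ≤ m) :
    ((cycleGraph (m + m))ᶜ).IsIndContained (square (EG m)) := by
  refine ⟨⟨⟨place m, place_inj m⟩, ?_⟩⟩
  intro i j
  change (square (EG m)).Adj (place m i) (place m j) ↔ _
  rw [compl_adj]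
  rcases lt_trichotomy i.val j.val with h | h | h
  · rw [place_adj m hm i j h]
    exact ⟨fun x => ⟨fun e => by rw [e] at h; omega, x⟩, fun x => x.2⟩
  · have e : i = j := Fin.ext h
    subst e
    constructor
    · intro x; exact absurd rfl x.ne
    · intro x; exact absurd rfl x.1
  · rw [(square (EG m)).adj_comm, place_adj m hm j i h, (cycleGraph (m + m)).adj_comm]
    exact ⟨fun x => ⟨fun e => by rw [e] at h; omega, x⟩, fun x => x.2⟩

/-- For `k ≥ 5`, the complement of the `k`-cycle is an induced subgraph of the square of some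
finite `P_6`-free graph with an efficient dominating set if and only if `k` is even. -/
theorem result : ∀ k : ℕ, 5 ≤ k →
    ((∃ (V : Type) (_ : Finite V) (G : SimpleGraph V) (D : Set V),
      P6Free G ∧ IsEfficientDominating G D ∧ ((cycleGraph k)ᶜ).IsIndContained (square G)) ↔
      Even k) := by
  intro k hk
  constructor
  · rintro ⟨V, _, G, D, hP, hD, h⟩
    exact odd_excluded G hP D hD k hk h
  · rintro ⟨m, rfl⟩
    exact ⟨EV m, inferInstance, EG m, {EV.p, EV.q}, EG_P6Free m, EG_eds m,
      EG_antihole m (by omega)⟩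

end Pool.Agent.Results.MP_a55661_co.AntiholeLengths
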